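import Mathlib
import Pool.Agent.Helper90.Prox.Kei

set_option autoImplicit false

/-!
# Minimal left ideals of the enveloping semigroup (helper90)
-/

namespace Pool.Agent.Helper90.Prox

open Topology Filter Set
open Pool.Agent.H100R2.MH

universe u

variable {D : Type u} [TopologicalSpace D] [CompactSpace D] [T2Space D]

/-- a closed semigroup of maps with a closed right ideal `I` has an idempotent in `I` which lies in a
minimal left ideal -/
theorem min_idem (E I : Set (D → D)) (hEc : IsClosed E) (hIc : IsClosed I) (hIE : I ⊆ E)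
    (hE : ∀ p ∈ E, ∀ q ∈ E, p ∘ q ∈ E) (hI : ∀ p ∈ I, ∀ q ∈ E, p ∘ q ∈ I) (hIn : I.Nonempty) :
    ∃ p ∈ I, p ∘ p = p ∧ ∀ q ∈ E, ∃ r ∈ E, r ∘ (q ∘ p) = p := by
  let S : Set (Set (D → D)) := {N | IsClosed N ∧ N.Nonempty ∧ N ⊆ E ∧ ∀ q ∈ E, ∀ m ∈ N, q ∘ m ∈ N}
  obtain ⟨M, -, hM⟩ := zorn_superset_nonempty S (fun c hcs hc hcn => by
    refine ⟨⋂₀ c, ⟨isClosed_sInter fun t ht => (hcs ht).1, ?_, ?_, ?_⟩, fun s hs =>
      Set.sInter_subset_of_mem hs⟩
    · convert
        @IsCompact.nonempty_iInter_of_directed_nonempty_isCompact_isClosed _ _ _ hcn.coe_sort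
          ((↑) : c → Set (D → D)) ?_ ?_ ?_ ?_
      · exact Set.sInter_eq_iInter
      · refine DirectedOn.directed_val (IsChain.directedOn hc.symm)
      exacts [fun i => (hcs i.prop).2.1, fun i => (hcs i.prop).1.isCompact, fun i => (hcs i.prop).1]
    · obtain ⟨s, hs⟩ := hcn
      exact (Set.sInter_subset_of_mem hs).trans (hcs hs).2.2.1
    · intro q hq m hm
      rw [Set.mem_sInter] at hm ⊢
      exact fun t ht => (hcs ht).2.2.2 q hq m (hm t ht)) E
    ⟨hEc, hIn.mono hIE, subset_refl _, hE⟩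
  obtain ⟨⟨hMc, ⟨m0, hm0⟩, hME, hMi⟩, hMmin⟩ := hM
  obtain ⟨p0, hp0⟩ := hIn
  let _ : Semigroup (D → D) := { mul := fun p q => p ∘ q, mul_assoc := fun _ _ _ => rfl }
  obtain ⟨p, hpJ, hpp⟩ := exists_idempotent_in_compact_subsemigroup
    (M := D → D) (fun q => continuous_pi fun x => continuous_apply (q x)) (I ∩ M)
    ⟨p0 ∘ m0, hI p0 hp0 m0 (hME hm0), hMi p0 (hIE hp0) m0 hm0⟩ (hIc.inter hMc).isCompact (by
      intro a ha b hb
      exact ⟨hI a ha.1 b (hME hb.2), hMi a (hIE ha.1) b hb.2⟩)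
  refine ⟨p, hpJ.1, hpp, fun q hq => ?_⟩
  have hcont : Continuous (fun r : D → D => r ∘ (q ∘ p)) :=
    continuous_pi fun x => continuous_apply (q (p x))
  have h1 : (fun r : D → D => r ∘ (q ∘ p)) '' E ∈ S := by
    refine ⟨(hEc.isCompact.image hcont).isClosed, ⟨_, ⟨p, hIE hpJ.1, rfl⟩⟩, ?_, ?_⟩
    · rintro _ ⟨r, hr, rfl⟩
      exact hE r hr _ (hE q hq p (hIE hpJ.1))
    · rintro a ha _ ⟨r, hr, rfl⟩
      exact ⟨a ∘ r, hE a ha r hr, rfl⟩
  have h2 : (fun r : D → D => r ∘ (q ∘ p)) '' E ⊆ M := by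
    rintro _ ⟨r, hr, rfl⟩
    exact hMi r hr _ (hMi q hq p hpJ.2)
  have h3 := hMmin h1 h2 hpJ.2
  obtain ⟨r, hr, hrp⟩ := h3
  exact ⟨r, hr, hrp⟩

/-- an idempotent in a minimal left ideal of the enveloping semigroup and a state invariant under the
reflections in its range -/
theorem exists_idem2 (K : Kei3 D) :
    ∃ y ∈ St D, (∀ i, y (K.ind i) = 1 / 3) ∧
      ∃ p ∈ EE K, (∀ x, p (p x) = p x) ∧ (∀ x, push (K.rc (p x)) y = y) ∧
        ∀ q ∈ EE K, ∃ r ∈ EE K, ∀ x, r (q (p x)) = p x := by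
  obtain ⟨y, hySt, hy3, p0, hp0, -, hinv⟩ := exists_idem K
  set S : Set D := {x | push (K.rc x) y = y} with hSdef
  have hScl : IsClosed S := by
    rw [isClosed_iff_ultrafilter]
    intro x 𝒱 hx hS
    have h6 := (t06 t01 t05 D K D (𝒱 : Filter D) (fun _ => y) y (fun _ => hySt) hySt
      tendsto_const_nhds).2 (fun w => w) x hx
    have h7 : Tendsto (fun w => push (K.rc w) y) (𝒱 : Filter D) (𝓝 y) := by
      refine Tendsto.congr' ?_ tendsto_const_nhds
      filter_upwards [hS] with w hw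
      exact (hw : push (K.rc w) y = y).symm
    exact tendsto_nhds_unique h6 h7
  obtain ⟨p, hpI, hpp, hmin⟩ := min_idem (EE K) (EE K ∩ ⋂ x, {p : D → D | p x ∈ S}) isClosed_closure
    (isClosed_closure.inter (isClosed_iInter fun x => hScl.preimage (continuous_apply x)))
    inter_subset_left (fun p hp q hq => EE_comp K hp hq) (by
      intro p hp q hq
      refine ⟨EE_comp K hp.1 hq, ?_⟩
      rw [mem_iInter]
      intro x
      exact (mem_iInter.1 hp.2) (q x)) ⟨p0, hp0, mem_iInter.2 fun x => hinv x⟩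
  refine ⟨y, hySt, hy3, p, hpI.1, fun x => congrFun hpp x, fun x => (mem_iInter.1 hpI.2) x,
    fun q hq => ?_⟩
  obtain ⟨r, hr, h⟩ := hmin q hq
  exact ⟨r, hr, fun x => congrFun h x⟩

end Pool.Agent.Helper90.Prox
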