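import Mathlib
import Pool.Agent.Helper90.Prox.Main
import Pool.Agent.Helper90.Prox2.Kei

set_option autoImplicit false
set_option linter.unusedSectionVars false

/-!
# The contracted normal subloop can be chosen maximal
-/

namespace Pool.Agent.Helper90.Prox

open Topology Filter Set
open Pool.Agent.Helper974.Moufang (IsMoufang kk FF)
open Pool.Agent.H100R2.MH
open Pool.Agent.TH15.MoufangHaar (ClosedNormal CN_cong CN_ldiv_mem CN_mem Cong ldiv_eq)
open Pool.Agent.R664.Haar (TopMoufang HasIntegral HaarKernel)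

universe u

section
variable {G : Type u} [TopologicalSpace G] {mul ldiv rdiv : G → G → G} {e : G}

theorem Mlt_comp_left {φ : G → G} (hφ : Mlt mul φ) (c : G) : Mlt mul (fun z => φ (mul c z)) := by
  induction hφ with
  | id => exact Mlt.left c Mlt.id
  | left a hφ ih => exact Mlt.left a ih
  | right a hφ ih => exact Mlt.right a ih

/-- every product of translations is a product of reflections on the first colour -/
theorem Mlt_act (h : IsMoufang mul ldiv rdiv e)
    (hm : Continuous (fun p : G × G => mul p.1 p.2)) (hl : Continuous (fun p : G × G => ldiv p.1 p.2))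
    {φ : G → G} (hφ : Mlt mul φ) :
    ∃ l : List (Fin 3 × G), ∀ z, (loopKei h hm hl).act l (0, z) = (0, φ z) := by
  induction hφ with
  | id => exact ⟨[], fun z => rfl⟩
  | left a hφ ih =>
    obtain ⟨l, hl'⟩ := ih
    refine ⟨(2, e) :: (2, a) :: l, fun z => ?_⟩
    rw [act_cons, act_cons, hl']
    refine Prod.ext (by change kk 2 (kk 2 0) = 0; decide) ?_
    change FF mul ldiv e 2 1 e (FF mul ldiv e 2 0 a _) = _
    simp (config := {decide := true}) only [FF, if_true, if_false]
    rw [h.mul_one, h.inv_inv]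
  | right a hφ ih =>
    obtain ⟨l, hl'⟩ := ih
    refine ⟨(1, e) :: (1, a) :: l, fun z => ?_⟩
    rw [act_cons, act_cons, hl']
    refine Prod.ext (by change kk 1 (kk 1 0) = 0; decide) ?_
    change FF mul ldiv e 1 2 e (FF mul ldiv e 1 0 a _) = _
    simp (config := {decide := true}) only [FF, if_true, if_false]
    rw [h.one_mul, h.inv_inv]

variable [CompactSpace G] [T2Space G]

/-- the main theorem -/
theorem main1 (h : IsMoufang mul ldiv rdiv e)
    (hm : Continuous (fun p : G × G => mul p.1 p.2)) (hl : Continuous (fun p : G × G => ldiv p.1 p.2))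
    (hr : Continuous (fun p : G × G => rdiv p.1 p.2)) :
    ∃ (N : Set G) (𝒱 : Ultrafilter (G → G)), NormalSub mul ldiv e N ∧
      ClosedNormal mul ldiv e (closure N) ∧ HaarKernel mul (closure N) ∧
      (N = {e} → HasIntegral mul) ∧
      (∀ᶠ φ in (𝒱 : Filter (G → G)), Inner mul e φ) ∧
      (∀ z ∈ N, Tendsto (fun φ : G → G => φ z) 𝒱 (𝓝 e)) ∧
      (∀ x, x ∉ N → ∃ n ∈ N, e ∉ closure {z | ∃ φ, Inner mul e φ ∧ φ (mul x n) = z}) ∧
      ∀ X : ℕ → G, (∀ n, X n ∈ N) →
        (∀ n, ∀ U ∈ 𝓝 e, ∀ᶠ φ in (𝒱 : Filter (G → G)), ∀ z ∈ W mul ldiv e X n, φ z ∈ U) ∧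
        (∀ C, ClosedNormal mul ldiv e C → C ⊆ ⋃ n, W mul ldiv e X n → C = {e}) := by
  obtain ⟨y, hy, hy3, p, hpE, hpp, hinv, hmin⟩ := exists_idem2 (loopKei h hm hl)
  obtain ⟨𝒰, hU⟩ := exists_ultra (loopKei h hm hl) hpE
  have hcol := colors h hm hl hU hpp
  have hC := homotopism h hm hl hcol
  set A : List (Fin 3 × G) → G → G := fun l z => ((loopKei h hm hl).act l (0, z)).2 with hA
  set B : List (Fin 3 × G) → G → G := fun l z => ((loopKei h hm hl).act l (1, z)).2 with hB
  set C : List (Fin 3 × G) → G → G := fun l z => ((loopKei h hm hl).act l (2, ldiv z e)).2 with hCd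
  have hC' : ∀ᶠ i in (𝒰 : Filter (List (Fin 3 × G))), ∀ a b,
      C i (mul a b) = ldiv (mul (A i a) (B i b)) e := hC
  have hlim : ∀ z, Tendsto (fun l : List (Fin 3 × G) => ((loopKei h hm hl).act l z).2) 𝒰
      (𝓝 (p z).2) := fun z => (continuous_snd.tendsto _).comp ((tendsto_pi_nhds.1 hU) z)
  have hc1 : ∀ x0, (p x0).1 = x0.1 := by
    intro x0
    have h1 : Tendsto (fun l : List (Fin 3 × G) => ((loopKei h hm hl).act l x0).1) 𝒰 (𝓝 (p x0).1) :=
      (continuous_fst.tendsto _).comp ((tendsto_pi_nhds.1 hU) x0)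
    have h2 : Tendsto (fun l : List (Fin 3 × G) => ((loopKei h hm hl).act l x0).1) 𝒰 (𝓝 x0.1) :=
      tendsto_const_nhds.congr' (hcol.mono fun l hl' => (hl'.2 x0).symm)
    exact tendsto_nhds_unique h1 h2
  -- `x` and `p x` are equivalent
  have hR : ∀ x0 : Fin 3 × G, EqL 𝒰 A (fun _ => x0.2) (fun _ => (p x0).2) := by
    rintro ⟨i, a⟩
    obtain ⟨b, hb⟩ : ∃ b, p (i, a) = (i, b) := ⟨(p (i, a)).2, Prod.ext (hc1 _) rfl⟩
    have l1 := hlim (i, a)
    have l2 := hlim (i, b)
    have hb2 : p (i, b) = (i, b) := by rw [← hb, hpp]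
    rw [hb] at l1 ⊢
    rw [hb2] at l2
    have hi : ∀ i : Fin 3, i = 0 ∨ i = 1 ∨ i = 2 := by decide
    rcases hi i with rfl | rfl | rfl
    · exact ⟨b, l1, l2⟩
    · have h1 : EqL 𝒰 B (fun _ => a) (fun _ => b) := ⟨b, l1, l2⟩
      exact CA h hm hl hC' (BC h hm hl hC' h1)
    · have h1 : EqL 𝒰 A (fun _ => ldiv a e) (fun _ => ldiv b e) := by
        refine CA h hm hl hC' ⟨b, ?_, ?_⟩
        · simpa only [hCd, h.inv_inv] using l1
        · simpa only [hCd, h.inv_inv] using l2
      have h2 := R_inv h hm hl hC' h1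
      simpa only [h.inv_inv] using h2
  set N : Set G := {z | EqL 𝒰 A (fun _ => z) (fun _ => e)} with hN
  have hNn : NormalSub mul ldiv e N := N_normal h hm hl hC'
  have hpN : ∀ x0 : Fin 3 × G, ldiv x0.2 (p x0).2 ∈ N := by
    intro x0
    have h1 := R_mul h hm hl hC' (EqL.refl 𝒰 A (fun _ => ldiv x0.2 e)) (hR x0)
    simp only [h.inv_mul] at h1
    have h2 := h1.symm
    rw [ldiv_eq h]
    exact h2
  have hcl := closure_normal h hm hl hr hNn
  let φ : List (Fin 3 × G) → G → G := fun l z => mul (ldiv (A l e) e) (A l z)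
  have hφ : ∀ᶠ l in (𝒰 : Filter (List (Fin 3 × G))), Inner mul e (φ l) := by
    filter_upwards [hcol] with l hl'
    obtain ⟨ψ, hψ, h1, -⟩ := act_Mlt h hm hl l 0
    have h2 : φ l = fun z => mul (ldiv (A l e) e) (ψ z) := by
      funext z
      change mul (ldiv (A l e) e) (A l z) = _
      rw [← h1 hl'.1 z]
    refine ⟨?_, h.inv_mul _⟩
    rw [h2]
    exact Mlt.left _ hψ
  refine ⟨N, 𝒰.map φ, hNn, hcl, ?_, ?_, hφ, ?_, ?_, ?_⟩
  · exact haarKernel_of h hm hl hr hcl hy hy3 hc1 (fun x => subset_closure (hpN x)) hinv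
  · intro hNe
    apply hasIntegral_of_amen
    refine t18 G mul ldiv rdiv e h hm hl ⟨y, hy, hy3, fun x => ?_⟩
    have h1 : p x = x := by
      have h2 : ldiv x.2 (p x).2 = e := by
        have := hpN x
        rw [hNe] at this
        exact this
      refine Prod.ext (hc1 x) ?_
      have h3 := h.mul_ldiv x.2 (p x).2
      rw [h2, h.mul_one] at h3
      exact h3.symm
    have h2 := hinv x
    rwa [h1] at h2
  · intro z hz
    exact contract h hm hl hC' hz
  · intro x hx
    obtain ⟨f0, hf0⟩ : ∃ f0, p (0, e) = (0, f0) := ⟨(p (0, e)).2, Prod.ext (hc1 _) rfl⟩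
    obtain ⟨fx, hfx⟩ : ∃ fx, p (0, x) = (0, fx) := ⟨(p (0, x)).2, Prod.ext (hc1 _) rfl⟩
    have r0 : EqL 𝒰 A (fun _ => f0) (fun _ => e) := by
      have := (hR (0, e)).symm
      rw [hf0] at this
      exact this
    have rx : EqL 𝒰 A (fun _ => fx) (fun _ => x) := by
      have := (hR (0, x)).symm
      rw [hfx] at this
      exact this
    have hee : ldiv e e = e := by
      have := h.ldiv_mul e e
      rwa [h.mul_one] at this
    have rt : EqL 𝒰 A (fun _ => mul (ldiv f0 e) fx) (fun _ => x) := by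
      have h1 := R_mul h hm hl hC' (R_inv h hm hl hC' r0) rx
      simp only [hee, h.one_mul] at h1
      exact h1
    have rn : EqL 𝒰 A (fun _ => ldiv x (mul (ldiv f0 e) fx)) (fun _ => e) := by
      have h1 := R_mul h hm hl hC' (EqL.refl 𝒰 A (fun _ => ldiv x e)) rt
      simp only [h.inv_mul] at h1
      rw [ldiv_eq h x]
      exact h1
    refine ⟨ldiv x (mul (ldiv f0 e) fx), rn, ?_⟩
    rw [h.mul_ldiv]
    intro hcl'
    obtain ⟨u, hu1, hu2⟩ := mem_closure_iff_ultrafilter.1 hcl'
    have hex : ∀ z ∈ {z | ∃ φ, Inner mul e φ ∧ φ (mul (ldiv f0 e) fx) = z},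
        ∃ l : List (Fin 3 × G), (loopKei h hm hl).act l (0, f0) = (0, e) ∧
          (loopKei h hm hl).act l (0, fx) = (0, z) := by
      rintro z ⟨ψ, hψ, hz⟩
      obtain ⟨l, hl'⟩ := Mlt_act h hm hl (Mlt_comp_left hψ.1 (ldiv f0 e))
      refine ⟨l, ?_, ?_⟩
      · rw [hl', h.inv_mul, hψ.2]
      · rw [hl', hz]
    choose! l hl1 hl2 using hex
    obtain ⟨q, -, hq⟩ := isCompact_univ.ultrafilter_le_nhds
      (u.map (fun z : G => ((loopKei h hm hl).act (l z) : Fin 3 × G → Fin 3 × G))) (by simp)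
    have hqt : Tendsto (fun z : G => ((loopKei h hm hl).act (l z) : Fin 3 × G → Fin 3 × G)) u (𝓝 q) :=
      hq
    have hqE : q ∈ EE (loopKei h hm hl) :=
      mem_closure_of_tendsto hqt (Eventually.of_forall fun z => ⟨l z, rfl⟩)
    have hq0 : q (0, f0) = (0, e) := by
      refine tendsto_nhds_unique ((tendsto_pi_nhds.1 hqt) (0, f0)) ?_
      refine Tendsto.congr' ?_ tendsto_const_nhds
      filter_upwards [hu1] with z hz
      exact (hl1 z hz).symm
    have hqx : q (0, fx) = (0, e) := by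
      refine tendsto_nhds_unique ((tendsto_pi_nhds.1 hqt) (0, fx)) ?_
      have h1 : Tendsto (fun z : G => ((0 : Fin 3), z)) u (𝓝 (0, e)) :=
        tendsto_const_nhds.prodMk_nhds hu2
      refine Tendsto.congr' ?_ h1
      filter_upwards [hu1] with z hz
      exact (hl2 z hz).symm
    obtain ⟨r, -, hr'⟩ := hmin q hqE
    have k0 := hr' (0, e)
    have kx := hr' (0, x)
    rw [hf0, hq0] at k0
    rw [hfx, hqx] at kx
    have hff : f0 = fx := by
      have := k0.symm.trans kx
      exact congrArg Prod.snd this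
    apply hx
    have h1 := rt.symm
    rw [hff, h.inv_mul] at h1
    exact h1
  · intro X hX
    refine ⟨?_, ?_⟩
    · intro n U hU'
      change ∀ᶠ l in (𝒰 : Filter (List (Fin 3 × G))), ∀ z ∈ W mul ldiv e X n, φ l z ∈ U
      by_contra hcon
      rw [← Ultrafilter.eventually_not] at hcon
      have h1 : ∀ᶠ l in (𝒰 : Filter (List (Fin 3 × G))), ∃ z, z ∈ W mul ldiv e X n ∧ φ l z ∉ U := by
        filter_upwards [hcon] with l hl'
        push Not at hl'
        exact hl'
      obtain ⟨z, hz⟩ := h1.choice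
      have h2 := W_sel h hm hl hC' hX n z (hz.mono fun l hl' => hl'.1)
      have h3 := contract h hm hl hC' h2
      obtain ⟨l, h4, h5⟩ := ((h3.eventually_mem hU').and hz).exists
      exact h5.2 h4
    · intro D hD hDW
      obtain ⟨M, hM⟩ := baire_step h hm hl _ hD hDW
      refine Subset.antisymm ?_ (singleton_subset_iff.2 hD.one_mem)
      intro c hc
      have h1 : ∀ᶠ l in (𝒰 : Filter (List (Fin 3 × G))), ∃ z, z ∈ D ∧ φ l z = c := by
        filter_upwards [hφ] with l hl'
        obtain ⟨z, hz⟩ := Mlt_surj h hl'.1 c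
        refine ⟨z, ?_, hz⟩
        have h2 := Mlt_cong h (CN_cong h hD) hl'.1 e z (by
          rw [hl'.2, hz, CN_mem h hD]; exact hc)
        exact (CN_mem h hD z).1 h2
      obtain ⟨z, hz⟩ := h1.choice
      have h2 := W_sel h hm hl hC' hX M z (hz.mono fun l hl' => hM hl'.1)
      have h3 := contract h hm hl hC' h2
      have h4 : Tendsto (fun l => φ l (z l)) 𝒰 (𝓝 c) :=
        tendsto_const_nhds.congr' (hz.mono fun l hl' => hl'.2.symm)
      exact tendsto_nhds_unique h4 h3

end

end Pool.Agent.Helper90.Prox
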