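import Mathlib
import Pool.Agent.Helper90.Prox.Final
import Pool.Agent.Helper90.Prox2.Main

set_option autoImplicit false
set_option linter.unusedSectionVars false

/-!
# Structure theorem, final form
-/

namespace Pool.Agent.Helper90.Prox

open Topology Filter Set
open Pool.Agent.Helper974.Moufang (IsMoufang)
open Pool.Agent.TH15.MoufangHaar (ClosedNormal)
open Pool.Agent.R664.Haar (TopMoufang HasIntegral HaarKernel)

universe u

variable {L : Type u} [TopologicalSpace L] [CompactSpace L] [T2Space L]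
  {mul ldiv rdiv : L → L → L} {e : L}

theorem final2 (TL : TopMoufang mul ldiv rdiv e) :
    ∃ (N : Set L) (𝒱 : Ultrafilter (L → L)), NormalSub mul ldiv e N ∧
      ClosedNormal mul ldiv e (closure N) ∧ HaarKernel mul (closure N) ∧
      (N = {e} → HasIntegral mul) ∧
      (∀ᶠ φ in (𝒱 : Filter (L → L)), Inner mul e φ) ∧
      (∀ z ∈ N, Tendsto (fun φ : L → L => φ z) 𝒱 (𝓝 e)) ∧
      (∀ x, x ∉ N → ∃ n ∈ N, e ∉ closure {z | ∃ φ, Inner mul e φ ∧ φ (mul x n) = z}) ∧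
      ∀ X : ℕ → L, (∀ n, X n ∈ N) →
        (∃ W : ℕ → Set L, (∀ n, IsCompact (W n)) ∧ ⋃ n, W n = NC mul ldiv e X ∧
          ∀ n, ∀ U ∈ 𝓝 e, ∀ᶠ φ in (𝒱 : Filter (L → L)), ∀ z ∈ W n, φ z ∈ U) ∧
        ∀ C, ClosedNormal mul ldiv e C → C ⊆ NC mul ldiv e X → C = {e} := by
  obtain ⟨N, 𝒱, h1, h2, h3, h4, h5, h6, h61, h7⟩ := main1 TL.old TL.cm TL.cl TL.cr
  refine ⟨N, 𝒱, h1, h2, h3, h4, h5, h6, h61, fun X hX => ?_⟩
  obtain ⟨h8, h9⟩ := h7 X hX
  rw [iUnion_W TL.old] at h9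
  exact ⟨⟨_, W_compact TL.cm TL.cl X, iUnion_W TL.old X, h8⟩, h9⟩

end Pool.Agent.Helper90.Prox
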